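import Pool.Agent.TF2.O.Int
import Pool.Agent.QD.F.Trace

/-!
# TF2/O-Fin1: only finitely many square classes with poles near `z0` (paper 7.2, first part)

PLAN.  `syO_near` for `K`: `ρ`.  Suppose `x : Fin 14 → Kˣ` as in the statement.  `L i = (qf (hx i)).L`; `intO` for `L i`: the order is an integer `k_i`, `k_i < 0` (`logO_unique`), so `k_i ≤ -1`; `RX (x i) = RF (L i)` (definition of `RX`).  `syO` for `L i` at `z i` (`z i ≠ 1` by `syO_near`):
`LogO (RF L (· + 1/2)) (z i) e_i`, `LogO (SP L) (z i) y_i`, `y_i = n_i - k_i - e_i`, so `y_i + e_i ≥ 1`; both are integers, so `e_i ≥ 1` or `y_i ≥ 1`.  Among `14` indices there are `5` with `e_i ≥ 1` or `10` with `y_i ≥ 1`.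
For `K` (by `syO_near`): `SumO S (Ee a (z i).im) 0`, `SumO S (Ef a (z i).im) 0`; with `sumE_L`, `sumF_L` and `SumO.sub`: `SumO S (Ee * χ_i) (-e_i)`, `SumO S (Ef * χ_i) (-y_i)`.  First case: `sum_bessel` with `F v = a_v/√N_v`, `B = 2`, `κ = 1`, `n = 5`, `u i v = uK v (x i) cos (Im z_i log N_v)`;
second case: `F v = (a_v² - N_v)/N_v`, `B = 3`, `n = 10`, `u i v = uK v (x i) cos (2 Im z_i log N_v)`.  `ho`: `ort_bd`.  Sub-families: `Fin 5 ↪ Fin 14` from `Finset` of cardinality `≥ 5` (`Finset.orderEmbOfFin`).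
-/

namespace Pool.Agent.TF2

open NumberField IsDedekindDomain Pool.Agent.HWR Pool.Agent.QD Pool.Agent.QD.In Pool.Agent.LD
  Pool.Agent.MD Pool.Agent.THF

private theorem fin1_u {K : Type} [Field K] [NumberField K] (v : HeightOneSpectrum (𝓞 K))
    (x : Kˣ) (c : ℝ) : |(uK v x : ℝ) * Real.cos c| ≤ 1 := by
  have h1 : |(uK v x : ℝ)| ≤ 1 := by
    unfold uK
    split_ifs <;> norm_num
  have h2 := Real.abs_cos_le_one c
  rw [abs_mul]
  calc |(uK v x : ℝ)| * |Real.cos c| ≤ 1 * 1 := mul_le_mul h1 h2 (abs_nonneg _) zero_le_one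
    _ = 1 := one_mul 1

private theorem fin1_v {K : Type} [Field K] [NumberField K] (v : HeightOneSpectrum (𝓞 K))
    (x : Kˣ) : |1 + (uK v x : ℝ)| ≤ 2 := by
  unfold uK
  split_ifs <;> norm_num

private theorem fin1_sub {n m : ℕ} (s : Finset (Fin n)) (h : m ≤ s.card) :
    ∃ f : Fin m → Fin n, Function.Injective f ∧ ∀ j, f j ∈ s := by
  obtain ⟨t, ht, hc⟩ := Finset.exists_subset_card_eq h
  exact ⟨t.orderEmbOfFin hc, (t.orderEmbOfFin hc).injective,
    fun j => ht (t.orderEmbOfFin_mem hc j)⟩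

private theorem fin1_E {T : Finset ℕ} (hTp : ∀ p ∈ T, p.Prime)
    (hT : ∀ p : ℕ, p.Prime → p < 101 → p ∈ T) (D : LocData T) {a : ℕ → ℝ}
    (ha : ∀ q : ℕ, |a q| ≤ 2 * Real.sqrt q)
    {K : Type} [Field K] [NumberField K] {S : Finset (HeightOneSpectrum (𝓞 K))}
    (h2 : ∀ v : HeightOneSpectrum (𝓞 K), (2 : 𝓞 K) ∈ v.asIdeal → v ∈ S)
    (hST : ∀ v : HeightOneSpectrum (𝓞 K), ¬ Away K T v → v ∈ S) {x : Kˣ} (hx : ¬ IsSquare x)
    (hRK : RH D a K) (hRL : RH D a (qf hx).L)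
    {z : ℂ} (hz : z.re = 1) (hK : LogO (fun s => RF D a K (s + 1 / 2)) z 0) {e : ℝ}
    (he : LogO (fun s => RF D a (qf hx).L (s + 1 / 2)) z e) :
    SumO S (fun v => a (nrm v) / Real.sqrt (nrm v) *
      ((uK v x : ℝ) * Real.cos (z.im * Real.log (nrm v)))) (-e) := by
  have h1 := sumE_L hTp hT D ha h2 hST hx (qf hx).L (qf hx).deg (qf hx).θ (qf hx).sq
    hRL hz he
  have h3 := sumE_K hTp hT D ha h2 hST hRK hz hK
  have b1 : ∀ v : HeightOneSpectrum (𝓞 K), |(1 + (uK v x : ℝ)) * Ee a z.im v| ≤ 2 * 2 := by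
    intro v
    rw [abs_mul]
    exact mul_le_mul (fin1_v v x) (Ee_bd ha _ v) (abs_nonneg _) (by norm_num)
  have h4 := SumO.sub b1 (fun v => Ee_bd ha z.im v) h1 h3
  have e1 : (fun v : HeightOneSpectrum (𝓞 K) => (1 + (uK v x : ℝ)) * Ee a z.im v -
      Ee a z.im v) = fun v => a (nrm v) / Real.sqrt (nrm v) *
      ((uK v x : ℝ) * Real.cos (z.im * Real.log (nrm v))) := by
    funext v
    unfold Ee
    ring
  have e2 : -e - -(0 : ℝ) = -e := by ring
  rw [e1, e2] at h4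
  exact h4

private theorem fin1_F {T : Finset ℕ} (hTp : ∀ p ∈ T, p.Prime)
    (hT : ∀ p : ℕ, p.Prime → p < 101 → p ∈ T) {a : ℕ → ℝ}
    (ha : ∀ q : ℕ, |a q| ≤ 2 * Real.sqrt q) (hfr : FrobRel T a)
    {K : Type} [Field K] [NumberField K] {S : Finset (HeightOneSpectrum (𝓞 K))}
    (h2 : ∀ v : HeightOneSpectrum (𝓞 K), (2 : 𝓞 K) ∈ v.asIdeal → v ∈ S)
    (hST : ∀ v : HeightOneSpectrum (𝓞 K), ¬ Away K T v → v ∈ S) {x : Kˣ} (hx : ¬ IsSquare x)
    {z : ℂ} (hz : z.re = 1) (hK : LogO (SP K a T) z 0) {y : ℝ}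
    (hy : LogO (SP (qf hx).L a T) z y) :
    SumO S (fun v => (a (nrm v) ^ 2 - nrm v) / nrm v *
      ((uK v x : ℝ) * Real.cos (2 * z.im * Real.log (nrm v)))) (-y) := by
  have hs := sqRel_of_frob K T a hfr
  have h1 := sumF_L hT ha h2 hST hTp hs hx (qf hx).L (qf hx).deg (qf hx).θ (qf hx).sq hz hy
  have h3 := sumF_K hT ha h2 hST hs hz hK
  have b1 : ∀ v : HeightOneSpectrum (𝓞 K), |(1 + (uK v x : ℝ)) * Ef a z.im v| ≤ 2 * 3 := by
    intro v
    rw [abs_mul]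
    exact mul_le_mul (fin1_v v x) (Ef_bd ha _ v) (abs_nonneg _) (by norm_num)
  have h4 := SumO.sub b1 (fun v => Ef_bd ha z.im v) h1 h3
  have e1 : (fun v : HeightOneSpectrum (𝓞 K) => (1 + (uK v x : ℝ)) * Ef a z.im v -
      Ef a z.im v) = fun v => (a (nrm v) ^ 2 - nrm v) / nrm v *
      ((uK v x : ℝ) * Real.cos (2 * z.im * Real.log (nrm v))) := by
    funext v
    unfold Ef
    ring
  have e2 : -y - -(0 : ℝ) = -y := by ring
  rw [e1, e2] at h4
  exact h4

theorem fin_classesL {T : Finset ℕ} (hTp : ∀ p ∈ T, p.Prime)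
    (hT : ∀ p : ℕ, p.Prime → p < 101 → p ∈ T) (D : LocData T) {a : ℕ → ℝ}
    (ha : ∀ q : ℕ, |a q| ≤ 2 * Real.sqrt q) (hfr : FrobRel T a)
    {K : Type} [Field K] [NumberField K] (hX : SX D a K) (hMK : ME D a K)
    (hq : ∀ x : Kˣ, ∀ hx : ¬ IsSquare x, SX D a (qf hx).L ∧ IO D a (qf hx).L) {z0 : ℂ} (hz : z0.re = 1) : ∃ ρ : ℝ, 0 < ρ ∧
      ∀ (x : Fin 14 → Kˣ) (z : Fin 14 → ℂ) (o : Fin 14 → ℝ), (∀ i, ¬ IsSquare (x i)) →
        (∀ i j, i ≠ j → ¬ IsSquare (x i * x j)) → (∀ i, (z i).re = 1) → (∀ i, z i ≠ z0) →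
        (∀ i, ‖z i - z0‖ < ρ) → (∀ i, LogO (RX D a (x i)) (z i) (o i)) → ¬ ∀ i, o i < 0 := by
  obtain ⟨N, hN, hMK⟩ := hMK
  obtain ⟨ρ, hρ, hnear⟩ := syO_nearL hTp hT D ha hX hN hMK hz
  refine ⟨ρ, hρ, ?_⟩
  intro x z o hx hxx hzr hzn hzd ho hneg
  obtain ⟨S, h2, hST⟩ := exists_S2 K hTp (hT 2 Nat.prime_two (by norm_num))
  have hK := fun i => hnear (z i) (hzr i) (hzn i) (hzd i)
  have ho' : ∀ i, LogO (RF D a (qf (hx i)).L) (z i) (o i) := by
    intro i
    have h := ho i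
    unfold RX at h
    rw [dif_neg (hx i)] at h
    exact h
  have hint : ∀ i, ∃ k : ℤ, LogO (RF D a (qf (hx i)).L) (z i) k := by
    intro i
    exact (hq (x i) (hx i)).2 (z i) (hzr i)
  choose k hk using hint
  have hok : ∀ i, o i = k i := fun i => logO_unique (ho' i) (hk i)
  have hk1 : ∀ i, k i ≤ -1 := by
    intro i
    have h := hneg i
    rw [hok i] at h
    have h' : k i < 0 := by exact_mod_cast h
    omega
  have hsy := fun i => syOL hTp hT D ha (hq (x i) (hx i)).1 (hzr i)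
  choose n e he hy using hsy
  have hy1 : ∀ i, LogO (SP (qf (hx i)).L a T) (z i) (((n i : ℤ) - k i - e i : ℤ) : ℝ) := by
    intro i
    have h := hy i (k i) (hk i)
    rw [if_neg (hK i).1, sub_zero] at h
    push_cast
    exact h
  have hcase : ∀ i, 1 ≤ e i ∨ 1 ≤ (n i : ℤ) - k i - e i := by
    intro i
    have h := hk1 i
    by_cases h1 : 1 ≤ e i
    · exact Or.inl h1
    · right
      omega
  classical
  have hcard : 14 ≤ (Finset.univ.filter fun i => 1 ≤ e i).card +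
      (Finset.univ.filter fun i => 1 ≤ (n i : ℤ) - k i - e i).card := by
    have h1 : (Finset.univ : Finset (Fin 14)) ⊆ (Finset.univ.filter fun i => 1 ≤ e i) ∪
        (Finset.univ.filter fun i => 1 ≤ (n i : ℤ) - k i - e i) := by
      intro i _
      rw [Finset.mem_union, Finset.mem_filter, Finset.mem_filter]
      rcases hcase i with h | h
      · exact Or.inl ⟨Finset.mem_univ i, h⟩
      · exact Or.inr ⟨Finset.mem_univ i, h⟩
    have h2 := (Finset.card_le_card h1).trans (Finset.card_union_le _ _)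
    rwa [Finset.card_univ, Fintype.card_fin] at h2
  rcases Nat.lt_or_ge (Finset.univ.filter fun i => 1 ≤ e i).card 5 with h5 | h5
  · have h10 : 10 ≤ (Finset.univ.filter fun i => 1 ≤ (n i : ℤ) - k i - e i).card := by omega
    obtain ⟨f, hf, hfm⟩ := fin1_sub _ h10
    refine sum_bessel (S := S) (n := 10) (B := 3) (κ := 1) one_pos (by norm_num)
      (fun i v => (uK v (x (f i)) : ℝ) * Real.cos (2 * (z (f i)).im * Real.log (nrm v)))
      (fun i v => fin1_u v _ _) (fun v : HeightOneSpectrum (𝓞 K) => (a (nrm v) ^ 2 - nrm v) /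
        nrm v) ?_ ?_ (fun i => -(((n (f i) : ℤ) - k (f i) - e (f i) : ℤ) : ℝ)) ?_ ?_
    · intro v
      have h := Ef_bd ha 0 v
      unfold Ef at h
      rw [mul_zero, zero_mul, Real.cos_zero, mul_one] at h
      exact h
    · intro i j hij
      exact ort_bd h2 _ _ (hxx _ _ fun h => hij (hf h)) _ _
    · intro i
      have h := (Finset.mem_filter.1 (hfm i)).2
      have h' : (1 : ℝ) ≤ (((n (f i) : ℤ) - k (f i) - e (f i) : ℤ) : ℝ) := by exact_mod_cast h
      rw [abs_neg]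
      exact h'.trans (le_abs_self _)
    · intro i
      exact fin1_F hTp hT ha hfr h2 hST (hx (f i)) (hzr (f i)) (hK (f i)).2.2.2 (hy1 (f i))
  · obtain ⟨f, hf, hfm⟩ := fin1_sub _ h5
    refine sum_bessel (S := S) (n := 5) (B := 2) (κ := 1) one_pos (by norm_num)
      (fun i v => (uK v (x (f i)) : ℝ) * Real.cos ((z (f i)).im * Real.log (nrm v)))
      (fun i v => fin1_u v _ _) (fun v : HeightOneSpectrum (𝓞 K) => a (nrm v) /
        Real.sqrt (nrm v)) ?_ ?_ (fun i => -(e (f i) : ℝ)) ?_ ?_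
    · intro v
      have h := Ee_bd ha 0 v
      unfold Ee at h
      rw [zero_mul, Real.cos_zero, mul_one] at h
      exact h
    · intro i j hij
      exact ort_bd h2 _ _ (hxx _ _ fun h => hij (hf h)) _ _
    · intro i
      have h := (Finset.mem_filter.1 (hfm i)).2
      have h' : (1 : ℝ) ≤ (e (f i) : ℝ) := by exact_mod_cast h
      rw [abs_neg]
      exact h'.trans (le_abs_self _)
    · intro i
      exact fin1_E hTp hT D ha h2 hST (hx (f i)) hX.1 (hq (x (f i)) (hx (f i))).1.1 (hzr (f i)) (hK (f i)).2.2.1 (he (f i))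

end Pool.Agent.TF2
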