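import Pool.Agent.TF2.O.Fin1

/-!
# TF2/O-Fin2: LEMMA 7.2, no poles near `z0`, uniformly in the quadratic extensions

If the claim is false for all `ρ` one constructs by induction arbitrarily many independent
classes with poles near `z0`, against `fin_classes`.
-/

namespace Pool.Agent.TF2

open NumberField IsDedekindDomain Pool.Agent.HWR Pool.Agent.QD Pool.Agent.QD.In Pool.Agent.LD
  Pool.Agent.MD Pool.Agent.THF

private theorem f2_congr {T : Finset ℕ} (hTp : ∀ p ∈ T, p.Prime)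
    (hT : ∀ p : ℕ, p.Prime → p < 101 → p ∈ T) (D : LocData T) {a : ℕ → ℝ}
    (ha : ∀ q : ℕ, |a q| ≤ 2 * Real.sqrt q)
    {K : Type} [Field K] [NumberField K] (hR : RHq D a K) {x y : Kˣ} (hxy : IsSquare (x / y)) {s : ℂ}
    (hs : 1 < s.re) : RX D a x s = RX D a y s := by
  obtain ⟨h1, h2⟩ := RX_specL hTp hT ha hR x
  obtain ⟨h3, h4⟩ := RX_specL hTp hT ha hR y
  have ho : IsOpen {s : ℂ | 1 < s.re} := isOpen_lt continuous_const Complex.continuous_re
  have ho' : IsOpen {s : ℂ | 3 / 2 < s.re} := isOpen_lt continuous_const Complex.continuous_re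
  have h5 : AnalyticOnNhd ℂ (RX D a x) {s : ℂ | 1 < s.re} := h1.analyticOnNhd ho
  have h6 : AnalyticOnNhd ℂ (RX D a y) {s : ℂ | 1 < s.re} := h3.analyticOnNhd ho
  have hc : IsPreconnected {s : ℂ | 1 < s.re} := (convex_halfSpace_re_gt 1).isPreconnected
  have h2m : (2 : ℂ) ∈ {s : ℂ | 1 < s.re} := by
    show (1 : ℝ) < (2 : ℂ).re
    rw [Complex.re_ofNat]
    norm_num
  have h2m' : (2 : ℂ) ∈ {s : ℂ | 3 / 2 < s.re} := by
    show (3 / 2 : ℝ) < (2 : ℂ).re
    rw [Complex.re_ofNat]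
    norm_num
  have h7 : RX D a x =ᶠ[nhds 2] RX D a y := by
    filter_upwards [ho'.mem_nhds h2m'] with s hs
    rw [h2 s hs, h4 s hs, LX_class D hTp hT ha hxy hs]
  exact h5.eqOn_of_preconnected_of_eventuallyEq h6 hc h2m h7 hs

private theorem f2_near {T : Finset ℕ} (hTp : ∀ p ∈ T, p.Prime)
    (hT : ∀ p : ℕ, p.Prime → p < 101 → p ∈ T) (D : LocData T) {a : ℕ → ℝ}
    (ha : ∀ q : ℕ, |a q| ≤ 2 * Real.sqrt q)
    {K : Type} [Field K] [NumberField K] (hR : RHq D a K) (hMK : ME D a K) (x : Kˣ)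
    (hq : ∀ hx : ¬ IsSquare x, ME D a (qf hx).L) (z0 : ℂ) : ∃ ρ : ℝ, 0 < ρ ∧
      ∀ z : ℂ, z.re = 1 → z ≠ z0 → ‖z - z0‖ < ρ → LogO (RX D a x) z 0 := by
  by_cases h : IsSquare x
  · obtain ⟨N, hN, hm⟩ := hMK
    obtain ⟨ρ, hρ, h1⟩ := ord_near D hTp hT ha hR.1 hN hm z0
    refine ⟨ρ, hρ, fun z hz hz0 hzz => ?_⟩
    have h2 := logO_pow 2 (h1 z hz hz0 hzz)
    rw [mul_zero] at h2
    unfold RX
    rw [dif_pos h]
    exact h2
  · obtain ⟨N, hN, hm⟩ := hq h
    obtain ⟨ρ, hρ, h1⟩ := ord_near D hTp hT ha (hR.2 x h) hN hm z0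
    refine ⟨ρ, hρ, fun z hz hz0 hzz => ?_⟩
    unfold RX
    rw [dif_neg h]
    exact h1 z hz hz0 hzz

private theorem f2_div {G : Type} [CommGroup G] {x y : G} (h : IsSquare (y * x)) :
    IsSquare (y / x) := by
  obtain ⟨r, hr⟩ := h
  refine ⟨r / x, ?_⟩
  rw [div_mul_div_comm, ← hr, mul_div_mul_right_eq_div]

theorem finOL {T : Finset ℕ} (hTp : ∀ p ∈ T, p.Prime)
    (hT : ∀ p : ℕ, p.Prime → p < 101 → p ∈ T) (D : LocData T) {a : ℕ → ℝ}
    (ha : ∀ q : ℕ, |a q| ≤ 2 * Real.sqrt q) (hfr : FrobRel T a)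
    {K : Type} [Field K] [NumberField K] (hX : SX D a K) (hMK : ME D a K)
    (hq : ∀ x : Kˣ, ∀ hx : ¬ IsSquare x, Pk D a (qf hx).L) {z0 : ℂ} (hz : z0.re = 1) : ∃ ρ : ℝ, 0 < ρ ∧
      ∀ (x : Kˣ) (z : ℂ) (o : ℝ), z.re = 1 → z ≠ z0 → ‖z - z0‖ < ρ →
        LogO (RX D a x) z o → 0 ≤ o := by
  have hR : RHq D a K := ⟨hX.1, fun x hx => (hq x hx).1.1⟩
  obtain ⟨ρ1, hρ1, H1⟩ := fin_classesL hTp hT D ha hfr hX hMK
    (fun x hx => ⟨(hq x hx).1, (hq x hx).2.1⟩) hz
  obtain ⟨ρK, hρK, HK⟩ := f2_near hTp hT D ha hR hMK (1 : Kˣ) (fun hx => (hq 1 hx).2.2) z0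
  by_contra hcon
  push Not at hcon
  have key : ∀ n : ℕ, ∃ (ρ : ℝ) (x : Fin n → Kˣ) (z : Fin n → ℂ) (o : Fin n → ℝ), 0 < ρ ∧
      (∀ i, ¬ IsSquare (x i)) ∧ (∀ i j, i ≠ j → ¬ IsSquare (x i * x j)) ∧
      (∀ i, (z i).re = 1) ∧ (∀ i, z i ≠ z0) ∧ (∀ i, ‖z i - z0‖ < ρ1) ∧
      (∀ i, LogO (RX D a (x i)) (z i) (o i)) ∧ (∀ i, o i < 0) ∧
      ∀ w : ℂ, w.re = 1 → w ≠ z0 → ‖w - z0‖ < ρ → ∀ i, LogO (RX D a (x i)) w 0 := by
    intro n
    induction n with
    | zero =>
      exact ⟨1, fun i => i.elim0, fun i => i.elim0, fun i => i.elim0, one_pos,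
        fun i => i.elim0, fun i => i.elim0, fun i => i.elim0, fun i => i.elim0,
        fun i => i.elim0, fun i => i.elim0, fun i => i.elim0, fun _ _ _ _ i => i.elim0⟩
    | succ n ih =>
      obtain ⟨ρ, x, z, o, hρ, h1, h2, h3, h4, h5, h6, h7, h8⟩ := ih
      obtain ⟨y, w, o', hw, hw0, hww, hL, ho'⟩ :=
        hcon (min (min ρ1 ρK) ρ) (lt_min (lt_min hρ1 hρK) hρ)
      obtain ⟨ρy, hρy, Hy⟩ := f2_near hTp hT D ha hR hMK y (fun hx => (hq y hx).2.2) z0
      have hw1 : ‖w - z0‖ < ρ1 := hww.trans_le ((min_le_left _ _).trans (min_le_left _ _))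
      have hwK : ‖w - z0‖ < ρK := hww.trans_le ((min_le_left _ _).trans (min_le_right _ _))
      have hwρ : ‖w - z0‖ < ρ := hww.trans_le (min_le_right _ _)
      -- classes equal to that of `y` have the same order at `w`
      have hcl : ∀ t : Kˣ, IsSquare (y / t) → ¬ LogO (RX D a t) w 0 := by
        intro t ht h9
        have h10 : LogO (RX D a t) w o' := by
          refine hL.congr one_pos fun δ h0 _ => ?_
          refine f2_congr hTp hT D ha hR ht ?_
          rw [Complex.add_re, hw, Complex.ofReal_re]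
          linarith
        have h11 := logO_unique h9 h10
        linarith
      have hyn : ¬ IsSquare y := by
        intro h9
        refine hcl 1 ?_ (HK w hw hw0 hwK)
        rwa [div_one]
      have hyx : ∀ i, ¬ IsSquare (y * x i) := by
        intro i h9
        exact hcl (x i) (f2_div h9) (h8 w hw hw0 hwρ i)
      refine ⟨min ρ ρy, Fin.cons y x, Fin.cons w z, Fin.cons o' o, lt_min hρ hρy,
        ?_, ?_, ?_, ?_, ?_, ?_, ?_, ?_⟩
      · intro i
        refine Fin.cases ?_ (fun i => ?_) i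
        · rw [Fin.cons_zero]
          exact hyn
        · rw [Fin.cons_succ]
          exact h1 i
      · intro i j
        refine Fin.cases ?_ (fun i => ?_) i
        · refine Fin.cases ?_ (fun j => ?_) j
          · intro h9
            exact absurd rfl h9
          · intro _
            rw [Fin.cons_zero, Fin.cons_succ]
            exact hyx j
        · refine Fin.cases ?_ (fun j => ?_) j
          · intro _
            rw [Fin.cons_zero, Fin.cons_succ, mul_comm]
            exact hyx i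
          · intro h9
            rw [Fin.cons_succ, Fin.cons_succ]
            exact h2 i j fun h10 => h9 (by rw [h10])
      · intro i
        refine Fin.cases ?_ (fun i => ?_) i
        · rw [Fin.cons_zero]
          exact hw
        · rw [Fin.cons_succ]
          exact h3 i
      · intro i
        refine Fin.cases ?_ (fun i => ?_) i
        · rw [Fin.cons_zero]
          exact hw0
        · rw [Fin.cons_succ]
          exact h4 i
      · intro i
        refine Fin.cases ?_ (fun i => ?_) i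
        · rw [Fin.cons_zero]
          exact hw1
        · rw [Fin.cons_succ]
          exact h5 i
      · intro i
        refine Fin.cases ?_ (fun i => ?_) i
        · rw [Fin.cons_zero, Fin.cons_zero, Fin.cons_zero]
          exact hL
        · rw [Fin.cons_succ, Fin.cons_succ, Fin.cons_succ]
          exact h6 i
      · intro i
        refine Fin.cases ?_ (fun i => ?_) i
        · rw [Fin.cons_zero]
          exact ho'
        · rw [Fin.cons_succ]
          exact h7 i
      · intro v hv hv0 hvv i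
        refine Fin.cases ?_ (fun i => ?_) i
        · rw [Fin.cons_zero]
          exact Hy v hv hv0 (hvv.trans_le (min_le_right _ _))
        · rw [Fin.cons_succ]
          exact h8 v hv hv0 (hvv.trans_le (min_le_left _ _)) i
  obtain ⟨ρ, x, z, o, hρ, h1, h2, h3, h4, h5, h6, h7, h8⟩ := key 14
  exact H1 x z o h1 h2 h3 h4 h5 h6 h7

end Pool.Agent.TF2
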