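import Pool.Agent.TF2.O.SyO
import Pool.Agent.THF.O.Lb
import Pool.Agent.THF.O.LogEK
import Pool.Agent.THF.O.LogF
import Pool.Agent.QD.In.Ex
import Pool.Agent.QD.F.Trace

/-!
# TF2/O-Lb: a uniform lower bound for the order on the central line (paper (5.1))

The orders of the symmetric square (`syO`) and of the shifted L-function are bounded by the sums over the
places (`sumF_K`, `sumE_K`, `SumO.le_of`): at most `3` and `2` in absolute value, so the order is at
least `- 3 - 2 - 1`.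
-/

namespace Pool.Agent.TF2

open NumberField IsDedekindDomain Pool.Agent.HWR Pool.Agent.QD Pool.Agent.QD.In Pool.Agent.LD
  Pool.Agent.MD Pool.Agent.THF

theorem lbOL {T : Finset ℕ} (hTp : ∀ p ∈ T, p.Prime)
    (hT : ∀ p : ℕ, p.Prime → p < 101 → p ∈ T) (D : LocData T) {a : ℕ → ℝ}
    (ha : ∀ q : ℕ, |a q| ≤ 2 * Real.sqrt q) (hfr : FrobRel T a)
    {K : Type} [Field K] [NumberField K] (hX : SX D a K) {z : ℂ} (hz : z.re = 1) {o : ℝ}
    (ho : LogO (RF D a K) z o) : -6 ≤ o := by
  classical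
  obtain ⟨S, h2, hST⟩ := exists_S2 K hTp (hT 2 Nat.prime_two (by norm_num))
  obtain ⟨n, e, he, hs⟩ := syOL hTp hT D ha hX hz
  have hR : RH D a K := hX.1
  have h3 := sumF_K hT ha h2 hST (sqRel_of_frob K T a hfr) hz (hs o ho)
  have h4 := SumO.le_of (Ef_bd ha z.im) h3
  have h5 := sumE_K hTp hT D ha h2 hST hR hz he
  have h6 := SumO.le_of (Ee_bd ha z.im) h5
  have h7 := (abs_le.1 h4).1
  have h8 := (abs_le.1 h6).1
  have h9 : (0 : ℝ) ≤ n := Nat.cast_nonneg n
  split_ifs at h7 <;> linarith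

end Pool.Agent.TF2
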