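import Pool.Agent.THF.O.Mer0
import Pool.Agent.THF.O.ZL
import Pool.Agent.THF.K.SymF
import Pool.Agent.TF2.K.SymF

/-!
# TF2/O-SyO: the orders of the symmetric square on the line `Re s = 1` (paper section 5)

`symF`: `N s = B1 s * ((2 s - 2) * Z (2 s - 1)) * (RF s * RF (s + 1/2)) * SP s` for `Re s > 1`.  `N` is not
identically zero (`syo_N`), the factor `(2 s - 2) * Z (2 s - 1)` has the order `1` at `z = 1` and `0`
at the other points of the line (`syo_Q`).  `syo_main`: the order of `SP` from the other ones.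
`syO_near`: zeros of `N` and of `RF (· + 1/2)` are isolated, `ord_near` for `RF`.
-/

namespace Pool.Agent.TF2

open NumberField IsDedekindDomain Pool.Agent.HWR Pool.Agent.QD Pool.Agent.QD.In Pool.Agent.LD
  Pool.Agent.MD Pool.Agent.THF

private theorem syo_open (c : ℝ) : IsOpen {s : ℂ | c < s.re} :=
  isOpen_lt continuous_const Complex.continuous_re

private theorem syo_pre (c : ℝ) : IsPreconnected {s : ℂ | c < s.re} :=
  (convex_halfSpace_re_gt c).isPreconnected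

private theorem syo_fin {f : ℂ → ℂ} {U : Set ℂ} (hU : IsOpen U) (hUp : IsPreconnected U)
    (hf : DifferentiableOn ℂ f U) {z w : ℂ} (hz : z ∈ U) (hw : w ∈ U) (hne : f w ≠ 0) :
    ∃ n : ℕ, analyticOrderAt f z = n := by
  have han : AnalyticOnNhd ℂ f U := hf.analyticOnNhd hU
  have h1 : analyticOrderAt f z ≠ ⊤ := by
    intro h
    rw [analyticOrderAt_eq_top] at h
    exact hne (han.eqOn_zero_of_preconnected_of_eventuallyEq_zero hUp hz h hw)
  obtain ⟨n, hn⟩ := ENat.ne_top_iff_exists.mp h1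
  exact ⟨n, hn.symm⟩

/-- an analytic function which does not vanish at the point -/
private theorem syo_zero {f : ℂ → ℂ} {z : ℂ} (hf : AnalyticAt ℂ f z) (h : f z ≠ 0) :
    LogO f z 0 := by
  have h1 := logO_of (n := 0) hf (by rw [hf.analyticOrderAt_eq_zero.2 h]; rfl)
  simpa using h1

private theorem syo_half (s : ℂ) : (s + 1 / 2).re = s.re + 1 / 2 := by
  rw [Complex.add_re, Complex.div_ofNat_re]
  norm_num

private theorem syo_shift {f : ℂ → ℂ} {z : ℂ} {x : ℝ} (h : LogO f (z + 1 / 2) x) :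
    LogO (fun s => f (s + 1 / 2)) z x := by
  obtain ⟨C, d, hd, h⟩ := h
  refine ⟨C, d, hd, fun δ h0 h1 => ?_⟩
  have e : z + (δ : ℂ) + 1 / 2 = z + 1 / 2 + (δ : ℂ) := by ring
  dsimp only
  rw [e]
  exact h δ h0 h1

open Classical in
private theorem syo_Q (F : Type) [Field F] [NumberField F] {Z : ℂ → ℂ} (hZ : Differentiable ℂ Z)
    (h1 : Z 1 ≠ 0) (hw : ∀ w : ℂ, 1 < w.re → Z w = (w - 1) * ZP F w) {z : ℂ} (hz : z.re = 1) :
    LogO (fun s => (2 * s - 2) * Z (2 * s - 1)) z (if z = 1 then 1 else 0) := by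
  have hre : (2 * z - 1).re = 1 := by
    simp [hz]
    norm_num
  have hlin : Differentiable ℂ fun s : ℂ => 2 * s - 1 := by fun_prop
  have hlin2 : Differentiable ℂ fun s : ℂ => 2 * s - 2 := by fun_prop
  have hZz : LogO (fun s => Z (2 * s - 1)) z 0 :=
    syo_zero ((hZ.comp hlin).analyticAt z) (Z_ne_line F hZ h1 hw (by rw [hre]))
  by_cases h : z = 1
  · rw [if_pos h]
    subst h
    have h2 : LogO (fun s : ℂ => 2 * s - 2) 1 ((1 : ℕ) : ℝ) := by
      refine logO_of (hlin2.analyticAt 1) ?_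
      rw [(hlin2.analyticAt 1).analyticOrderAt_eq_natCast]
      refine ⟨fun _ => 2, analyticAt_const, two_ne_zero, ?_⟩
      refine Filter.Eventually.of_forall fun s => ?_
      rw [smul_eq_mul]
      ring
    have h3 := h2.mul hZz
    simpa using h3
  · rw [if_neg h]
    have h2 : LogO (fun s : ℂ => 2 * s - 2) z 0 := by
      refine syo_zero (hlin2.analyticAt z) ?_
      intro h3
      apply h
      linear_combination h3 / 2
    have h3 := h2.mul hZz
    simpa using h3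

variable {T : Finset ℕ} (hTp : ∀ p ∈ T, p.Prime)
  (hT : ∀ p : ℕ, p.Prime → p < 101 → p ∈ T) (D : LocData T) {a : ℕ → ℝ}
  (ha : ∀ q : ℕ, |a q| ≤ 2 * Real.sqrt q)
  {K : Type} [Field K] [NumberField K] (hX : SX D a K)

include hTp hT ha hX

open Classical in
private theorem syo_main : ∃ N : ℂ → ℂ, DifferentiableOn ℂ N {s : ℂ | 1 / 2 < s.re} ∧ N 2 ≠ 0 ∧
    ∀ z : ℂ, z.re = 1 → ∀ n o e : ℝ, LogO N z n → LogO (RF D a K) z o →
      LogO (fun s => RF D a K (s + 1 / 2)) z e →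
        LogO (SP K a T) z (n - o - e - if z = 1 then 1 else 0) := by
  obtain ⟨hR, N, B1, Z, hN, hB, hB0, hZ, hZ1, hZw, hNB⟩ := hX
  refine ⟨N, hN, ?_, ?_⟩
  · have h2 : (2 : ℂ).re = 2 := by norm_num
    rw [hNB 2 (by rw [h2]; norm_num)]
    have e1 : (2 * (2 : ℂ) - 2) ≠ 0 := by norm_num
    have e2 : Z (2 * 2 - 1) ≠ 0 := by
      refine Z_ne_line K hZ hZ1 hZw ?_
      norm_num
    have e3 : RF D a K 2 ≠ 0 := RF_ne D hTp hT ha hR (by rw [h2]; norm_num)
    have e4 : RF D a K (2 + 1 / 2) ≠ 0 := RF_ne D hTp hT ha hR (by rw [syo_half, h2]; norm_num)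
    have e5 : SP K a T 2 ≠ 0 :=
      gen_ne (fun v : {v : HeightOneSpectrum (𝓞 K) // Away K T v} => nrm v.1)
        (fun v => a (nrm v.1)) (fun v => nrm_away K T hT v.1 v.2) (fun v => ha _)
        (fun x hx => (summable_nrm K hx).subtype _) (by rw [h2]; norm_num)
    exact mul_ne_zero (mul_ne_zero (mul_ne_zero (hB0 2 (by rw [h2]; norm_num))
      (mul_ne_zero e1 e2)) (mul_ne_zero e3 e4)) e5
  · intro z hz n o e hn ho he
    have hre : ∀ δ : ℝ, (z + (δ : ℂ)).re = 1 + δ := by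
      intro δ
      rw [Complex.add_re, hz, Complex.ofReal_re]
    have hzU : z ∈ {s : ℂ | 1 / 2 < s.re} := by
      show (1 / 2 : ℝ) < z.re
      rw [hz]
      norm_num
    have lB : LogO B1 z 0 := syo_zero (hB.analyticAt ((syo_open _).mem_nhds hzU)) (hB0 z hzU)
    have lQ := syo_Q K hZ hZ1 hZw hz
    have lP := (lB.mul lQ).mul (ho.mul he)
    have lN2 : LogO (fun s => (B1 s * ((2 * s - 2) * Z (2 * s - 1)) *
        (RF D a K s * RF D a K (s + 1 / 2))) * SP K a T s) z n :=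
      hn.congr one_pos fun δ h0 _ => hNB _ (by rw [hre]; linarith)
    have lS := lN2.of_mul lP
    have e1 : n - (0 + (if z = 1 then 1 else 0) + (o + e)) =
        n - o - e - if z = 1 then 1 else 0 := by ring
    rw [e1] at lS
    exact lS

open Classical in
theorem syOL {z : ℂ} (hz : z.re = 1) : ∃ n e : ℕ, LogO (fun s => RF D a K (s + 1 / 2)) z e ∧
    ∀ o : ℝ, LogO (RF D a K) z o →
      LogO (SP K a T) z ((n : ℝ) - o - e - if z = 1 then 1 else 0) := by
  obtain ⟨N, hN, hN2, hmain⟩ := syo_main hTp hT D ha hX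
  have hR := hX.1
  have hzU : z ∈ {s : ℂ | 1 / 2 < s.re} := by
    show (1 / 2 : ℝ) < z.re
    rw [hz]
    norm_num
  have h2U : (2 : ℂ) ∈ {s : ℂ | 1 / 2 < s.re} := by
    show (1 / 2 : ℝ) < (2 : ℂ).re
    norm_num
  obtain ⟨n, hn⟩ := syo_fin (syo_open _) (syo_pre _) hN hzU h2U hN2
  obtain ⟨e, -, he⟩ := ord_int D hTp hT ha hR (z := z + 1 / 2) (by rw [syo_half, hz]; norm_num)
  have he' := syo_shift he
  exact ⟨n, e, he', fun o ho => hmain z hz n o e
    (logO_of (hN.analyticAt ((syo_open _).mem_nhds hzU)) hn) ho he'⟩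

theorem syO_nearL {N : ℕ} (hN : 0 < N) (hM : MERn D a K N) {z0 : ℂ} (hz : z0.re = 1) :
    ∃ ρ : ℝ, 0 < ρ ∧ ∀ z : ℂ, z.re = 1 → z ≠ z0 → ‖z - z0‖ < ρ → z ≠ 1 ∧
      LogO (RF D a K) z 0 ∧ LogO (fun s => RF D a K (s + 1 / 2)) z 0 ∧
      LogO (SP K a T) z 0 := by
  obtain ⟨Nf, hNf, hN2, hmain⟩ := syo_main hTp hT D ha hX
  have hR := hX.1
  have hzU : z0 ∈ {s : ℂ | 1 / 2 < s.re} := by
    show (1 / 2 : ℝ) < z0.re
    rw [hz]
    norm_num
  have h2U : (2 : ℂ) ∈ {s : ℂ | 1 / 2 < s.re} := by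
    show (1 / 2 : ℝ) < (2 : ℂ).re
    norm_num
  obtain ⟨ρ1, hρ1, h1⟩ := ord_near D hTp hT ha hR hN hM z0
  -- zeros of `N`
  have hNa : ∀ z : ℂ, z ∈ {s : ℂ | 1 / 2 < s.re} → AnalyticAt ℂ Nf z := fun z hzz =>
    hNf.analyticAt ((syo_open _).mem_nhds hzz)
  have ev1 : ∀ᶠ z in nhdsWithin z0 {z0}ᶜ, Nf z ≠ 0 := by
    obtain ⟨n, hn⟩ := syo_fin (syo_open _) (syo_pre _) hNf hzU h2U hN2
    rcases (hNa z0 hzU).eventually_eq_zero_or_eventually_ne_zero with h | h
    · rw [analyticOrderAt_eq_top.2 h] at hn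
      exact absurd hn (ENat.top_ne_natCast n)
    · exact h
  -- zeros of `RF (· + 1/2)`
  have hRd := (RF_spec D a hR).1
  have hsh : DifferentiableOn ℂ (fun s => RF D a K (s + 1 / 2)) {s : ℂ | 1 / 2 < s.re} := by
    refine hRd.comp (by fun_prop) ?_
    intro s hs
    show (1 : ℝ) < (s + 1 / 2).re
    have hs' : 1 / 2 < s.re := hs
    rw [syo_half]
    linarith
  have hsa : ∀ z : ℂ, z ∈ {s : ℂ | 1 / 2 < s.re} →
      AnalyticAt ℂ (fun s => RF D a K (s + 1 / 2)) z := fun z hzz =>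
    hsh.analyticAt ((syo_open _).mem_nhds hzz)
  have ev2 : ∀ᶠ z in nhdsWithin z0 {z0}ᶜ, RF D a K (z + 1 / 2) ≠ 0 := by
    obtain ⟨n, hn⟩ := syo_fin (syo_open _) (syo_pre _) hsh hzU h2U
      (RF_ne D hTp hT ha hR (by rw [syo_half]; norm_num))
    rcases (hsa z0 hzU).eventually_eq_zero_or_eventually_ne_zero with h | h
    · rw [analyticOrderAt_eq_top.2 h] at hn
      exact absurd hn (ENat.top_ne_natCast n)
    · exact h
  have ev3 : ∀ᶠ z in nhdsWithin z0 {z0}ᶜ, z ≠ 1 := by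
    by_cases h : z0 = 1
    · rw [h]
      exact eventually_mem_nhdsWithin
    · exact nhdsWithin_le_nhds (isOpen_compl_singleton.mem_nhds h)
  obtain ⟨ρ2, hρ2, h2⟩ := Metric.mem_nhdsWithin_iff.1 (ev1.and (ev2.and ev3))
  refine ⟨min ρ1 ρ2, lt_min hρ1 hρ2, fun z hz1 hz2 hz3 => ?_⟩
  have hb : z ∈ Metric.ball z0 ρ2 ∩ {z0}ᶜ := by
    refine ⟨?_, hz2⟩
    rw [Metric.mem_ball, dist_eq_norm]
    exact hz3.trans_le (min_le_right _ _)
  obtain ⟨a1, a2, a3⟩ := h2 hb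
  have hzz : z ∈ {s : ℂ | 1 / 2 < s.re} := by
    show (1 / 2 : ℝ) < z.re
    rw [hz1]
    norm_num
  have l1 := h1 z hz1 hz2 (hz3.trans_le (min_le_left _ _))
  have l2 : LogO (fun s => RF D a K (s + 1 / 2)) z 0 := syo_zero (hsa z hzz) a2
  have l3 := hmain z hz1 0 0 0 (syo_zero (hNa z hzz) a1) l1 l2
  rw [if_neg a3] at l3
  simp only [sub_zero] at l3
  exact ⟨a3, l1, l2, l3⟩

end Pool.Agent.TF2
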